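import Pool.Agent.Helper92.IMP.GEnc
import Pool.Agent.Helper63.ImpLit

/-!
# The reduction as a map on coded graphs
-/

set_option autoImplicit false

open SimpleGraph

namespace Pool.Agent.Helper92.IMP

open Pool.Agent.Helper63.Imp

/-- the vertices of the subdivision -/
abbrev SV (k N : ℕ) : Type := Fin N ⊕ (Fin N × Fin N × Fin (2 * k - 2))

/-- the vertices of the graph of the reduction -/
abbrev RV (k N r p : ℕ) : Type := (SV k N × Fin (2 * k + 1)) × ((Fin r → Fin 5) × Fin p)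

/-- the code of `(u, v, i)` -/
def tcode (K N u v i : ℕ) : ℕ := N + ((i + K * v) + (N * K) * u)

/-- coding of the vertices of the subdivision -/
def sE (k N : ℕ) : SV k N ≃ Fin (N + N * (N * (2 * k - 2))) :=
  (Equiv.sumCongr (Equiv.refl (Fin N))
    ((Equiv.prodCongr (Equiv.refl (Fin N)) finProdFinEquiv).trans finProdFinEquiv)).trans
    finSumFinEquiv

theorem sE_inl {k N : ℕ} (a : Fin N) : ((sE k N) (.inl a)).val = a.val := by
  simp [sE]

theorem sE_inr {k N : ℕ} (u v : Fin N) (i : Fin (2 * k - 2)) :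
    ((sE k N) (.inr (u, v, i))).val = tcode (2 * k - 2) N u.val v.val i.val := by
  simp only [sE, Equiv.trans_apply, Equiv.sumCongr_apply, Sum.map_inr, Equiv.prodCongr_apply,
    Prod.map_apply, Equiv.refl_apply, finSumFinEquiv_apply_right, Fin.val_natAdd,
    finProdFinEquiv_apply_val]
  rfl

/-- coding of the vertices of the second factor -/
def bE (r p : ℕ) : ((Fin r → Fin 5) × Fin p) ≃ Fin (5 ^ r * p) :=
  (Equiv.prodCongr finFunctionFinEquiv (Equiv.refl (Fin p))).trans finProdFinEquiv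

theorem bE_val {r p : ℕ} (h : Fin r → Fin 5) (z : Fin p) :
    ((bE r p) (h, z)).val = z.val + p * (finFunctionFinEquiv h).val := by
  simp only [bE, Equiv.trans_apply, Equiv.prodCongr_apply, Prod.map_apply, Equiv.refl_apply,
    finProdFinEquiv_apply_val]

/-- the number of vertices -/
def MM (k N r p : ℕ) : ℕ := (N + N * (N * (2 * k - 2))) * (2 * k + 1) * (5 ^ r * p)

/-- coding of the vertices -/
def vE (k N r p : ℕ) : RV k N r p ≃ Fin (MM k N r p) :=
  (Equiv.prodCongr ((Equiv.prodCongr (sE k N) (Equiv.refl _)).trans finProdFinEquiv)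
    (bE r p)).trans finProdFinEquiv

/-- the code of a vertex -/
def vcode (k r p s c h z : ℕ) : ℕ := (z + p * h) + (5 ^ r * p) * (c + (2 * k + 1) * s)

theorem vE_val {k N r p : ℕ} (s : SV k N) (c : Fin (2 * k + 1)) (h : Fin r → Fin 5)
    (z : Fin p) : ((vE k N r p) ((s, c), (h, z))).val =
      vcode k r p (sE k N s).val c.val (finFunctionFinEquiv h).val z.val := by
  simp only [vE, Equiv.trans_apply, Equiv.prodCongr_apply, Prod.map_apply, Equiv.refl_apply,
    bE_val]
  rfl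

/-- adjacency in the subdivision, on codes, in one direction -/
def DN (K N : ℕ) (P : ℕ → Prop) (s s' : ℕ) : Prop :=
  ∃ u, u < N ∧ ∃ v, v < N ∧ (u < v ∧ P (u * N + v)) ∧ ∃ i, i < K ∧ s' = tcode K N u v i ∧
    ((s = u ∧ i = 0) ∨ (s = v ∧ i + 1 = K) ∨ (1 ≤ i ∧ s + 1 = s'))

/-- adjacency in the cycle, on codes -/
def CN (k c c' : ℕ) : Prop :=
  ∃ (h : c < 2 * k + 1) (h' : c' < 2 * k + 1), (cycleGraph (2 * k + 1)).Adj ⟨c, h⟩ ⟨c', h'⟩

/-- adjacency in the lexicographic power, on codes -/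
def LN (r h h' : ℕ) : Prop :=
  ∃ (a : h < 5 ^ r) (a' : h' < 5 ^ r), (lexPow (cycleGraph 5) r).Adj
    (finFunctionFinEquiv.symm ⟨h, a⟩) (finFunctionFinEquiv.symm ⟨h', a'⟩)

/-- adjacency in the graph of the reduction, on codes -/
def AN (k N r p q : ℕ) (P : ℕ → Prop) (s c h z s' c' h' z' : ℕ) : Prop :=
  (((DN (2 * k - 2) N P s s' ∨ DN (2 * k - 2) N P s' s) ∧ c = c') ∨ (s = s' ∧ CN k c c')) ∨
    ((s = s' ∧ c = c') ∧ (LN r h h' ∨ (h = h' ∧
      ((z + q ≤ z' ∧ z' + q ≤ p + z) ∨ (z' + q ≤ z ∧ z + q ≤ p + z')))))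

theorem tcode_inj {K N u v i u' v' i' : ℕ} (hv : v < N) (hi : i < K) (hv' : v' < N) (hi' : i' < K)
    (h : tcode K N u v i = tcode K N u' v' i') : u = u' ∧ v = v' ∧ i = i' := by
  unfold tcode at h
  have h1 : i + K * v < N * K := by
    calc i + K * v < K + K * v := by omega
      _ = (v + 1) * K := by ring
      _ ≤ N * K := Nat.mul_le_mul_right _ hv
  have h1' : i' + K * v' < N * K := by
    calc i' + K * v' < K + K * v' := by omega
      _ = (v' + 1) * K := by ring
      _ ≤ N * K := Nat.mul_le_mul_right _ hv'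
  have hpos : 0 < N * K := by omega
  have h2 : (i + K * v) + N * K * u = (i' + K * v') + N * K * u' := by omega
  have h3 : u = u' := by
    have := congrArg (· / (N * K)) h2
    simp only [Nat.add_mul_div_left _ _ hpos, Nat.div_eq_of_lt h1, Nat.div_eq_of_lt h1',
      Nat.zero_add] at this
    exact this
  subst h3
  have h4 : i + K * v = i' + K * v' := by omega
  have hK : 0 < K := by omega
  have h5 : v = v' := by
    have := congrArg (· / K) h4
    simp only [Nat.add_mul_div_left _ _ hK, Nat.div_eq_of_lt hi, Nat.div_eq_of_lt hi',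
      Nat.zero_add] at this
    exact this
  subst h5
  exact ⟨rfl, rfl, by omega⟩

theorem subRel_iff {k N : ℕ} (G : SimpleGraph (Fin N)) (a b : SV k N) :
    subRel k G a b ↔ DN (2 * k - 2) N (fun x => (encGraph ⟨N, G⟩)[x]? = some true)
      (sE k N a).val (sE k N b).val := by
  rcases a with x | ⟨u0, v0, i0⟩ <;> rcases b with y | ⟨u, v, i⟩
  · rw [sE_inl, sE_inl]
    constructor
    · intro h; exact absurd h id
    · rintro ⟨u, _, v, _, _, i, _, h, _⟩
      unfold tcode at h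
      have := y.isLt
      omega
  · rw [sE_inl, sE_inr]
    constructor
    · rintro ⟨h1, h2, h3⟩
      refine ⟨u.val, u.isLt, v.val, v.isLt, ⟨h1, (encGraph_bit G u v).2 h2⟩, i.val, i.isLt, rfl, ?_⟩
      rcases h3 with ⟨rfl, h3⟩ | ⟨rfl, h3⟩
      · exact Or.inl ⟨rfl, h3⟩
      · exact Or.inr (Or.inl ⟨rfl, h3⟩)
    · rintro ⟨u', hu', v', hv', ⟨h1, h2⟩, i', hi', h3, h4⟩
      obtain ⟨e1, e2, e3⟩ := tcode_inj v.isLt i.isLt hv' hi' h3
      subst e1; subst e2; subst e3
      refine ⟨h1, (encGraph_bit G u v).1 h2, ?_⟩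
      rcases h4 with ⟨h4, h5⟩ | ⟨h4, h5⟩ | ⟨h4, h5⟩
      · exact Or.inl ⟨Fin.ext h4, h5⟩
      · exact Or.inr ⟨Fin.ext h4, h5⟩
      · exfalso
        unfold tcode at h5
        have := x.isLt
        omega
  · rw [sE_inl, sE_inr]
    constructor
    · intro h; exact absurd h id
    · rintro ⟨u, _, v, _, _, i, _, h, _⟩
      unfold tcode at h
      have := y.isLt
      omega
  · rw [sE_inr, sE_inr]
    constructor
    · rintro ⟨h1, h2, h3, h4, h5⟩
      subst h3; subst h4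
      refine ⟨u.val, u.isLt, v.val, v.isLt, ⟨h1, (encGraph_bit G u v).2 h2⟩, i.val, i.isLt, rfl,
        Or.inr (Or.inr ⟨by omega, ?_⟩)⟩
      unfold tcode
      omega
    · rintro ⟨u', hu', v', hv', ⟨h1, h2⟩, i', hi', h3, h4⟩
      obtain ⟨e1, e2, e3⟩ := tcode_inj v.isLt i.isLt hv' hi' h3
      subst e1; subst e2; subst e3
      rcases h4 with ⟨h4, h5⟩ | ⟨h4, h5⟩ | ⟨h4, h5⟩
      · exfalso
        unfold tcode at h4
        have := u.isLt
        omega
      · exfalso
        unfold tcode at h4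
        have := v.isLt
        omega
      · have h6 : tcode (2 * k - 2) N u0.val v0.val i0.val =
            tcode (2 * k - 2) N u.val v.val (i.val - 1) := by
          unfold tcode at h5 ⊢
          omega
        obtain ⟨e1, e2, e3⟩ := tcode_inj v0.isLt i0.isLt v.isLt (by omega) h6
        have e1' : u0 = u := Fin.ext e1
        have e2' : v0 = v := Fin.ext e2
        subst e1'; subst e2'
        exact ⟨h1, (encGraph_bit G u0 v0).1 h2, rfl, rfl, by omega⟩

theorem subRel_ne {k N : ℕ} {G : SimpleGraph (Fin N)} {a b : SV k N} (h : subRel k G a b) :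
    a ≠ b := by
  rintro rfl
  rcases a with x | ⟨u, v, i⟩
  · exact h
  · obtain ⟨_, _, _, _, h5⟩ := h
    omega

theorem subdiv_iff {k N : ℕ} (G : SimpleGraph (Fin N)) (a b : SV k N) :
    (subdiv k G).Adj a b ↔
      (DN (2 * k - 2) N (fun x => (encGraph ⟨N, G⟩)[x]? = some true)
        (sE k N a).val (sE k N b).val ∨
       DN (2 * k - 2) N (fun x => (encGraph ⟨N, G⟩)[x]? = some true)
        (sE k N b).val (sE k N a).val) := by
  rw [← subRel_iff, ← subRel_iff]
  unfold subdiv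
  rw [SimpleGraph.fromRel_adj]
  constructor
  · exact fun h => h.2
  · intro h
    exact ⟨h.elim subRel_ne fun h => (subRel_ne h).symm, h⟩

theorem circF_iff {p q : ℕ} (hq : 0 < q) (z z' : Fin p) : (circF p q).Adj z z' ↔
    ((z.val + q ≤ z'.val ∧ z'.val + q ≤ p + z.val) ∨
      (z'.val + q ≤ z.val ∧ z.val + q ≤ p + z'.val)) := by
  change (z ≠ z' ∧ q ≤ Nat.dist z z' ∧ Nat.dist z z' + q ≤ p) ↔ _
  rcases le_total z.val z'.val with h | h
  · rw [Nat.dist_eq_sub_of_le h]
    constructor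
    · rintro ⟨h1, h2, h3⟩
      left; omega
    · rintro (⟨h1, h2⟩ | ⟨h1, h2⟩)
      · exact ⟨fun h' => by rw [h'] at h1; omega, by omega, by omega⟩
      · omega
  · rw [Nat.dist_eq_sub_of_le_right h]
    constructor
    · rintro ⟨h1, h2, h3⟩
      right; omega
    · rintro (⟨h1, h2⟩ | ⟨h1, h2⟩)
      · omega
      · exact ⟨fun h' => by rw [h'] at h1; omega, by omega, by omega⟩

theorem red_iff {k N r p q : ℕ} (hq : 0 < q) (G : SimpleGraph (Fin N)) (a b : RV k N r p) :
    (red k G (factor r p q)).Adj a b ↔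
      AN k N r p q (fun x => (encGraph ⟨N, G⟩)[x]? = some true)
        (sE k N a.1.1).val a.1.2.val (finFunctionFinEquiv a.2.1).val a.2.2.val
        (sE k N b.1.1).val b.1.2.val (finFunctionFinEquiv b.2.1).val b.2.2.val := by
  obtain ⟨⟨s, c⟩, h, z⟩ := a
  obtain ⟨⟨s', c'⟩, h', z'⟩ := b
  have e1 : ∀ (s s' : SV k N), s = s' ↔ (sE k N s).val = (sE k N s').val := fun s s' =>
    ⟨fun h => by rw [h], fun h => (sE k N).injective (Fin.ext h)⟩
  have e2 : ∀ h h' : Fin r → Fin 5, h = h' ↔ (finFunctionFinEquiv h).val =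
      (finFunctionFinEquiv h').val := fun s s' =>
    ⟨fun h => by rw [h], fun h => finFunctionFinEquiv.injective (Fin.ext h)⟩
  have e3 : (cycleGraph (2 * k + 1)).Adj c c' ↔ CN k c.val c'.val :=
    ⟨fun h => ⟨c.isLt, c'.isLt, h⟩, fun ⟨_, _, h⟩ => h⟩
  have e5 : ∀ (t : Fin r → Fin 5) (a : (finFunctionFinEquiv t).val < 5 ^ r),
      (finFunctionFinEquiv.symm ⟨(finFunctionFinEquiv t).val, a⟩ : Fin r → Fin 5) = t :=
    fun t a => finFunctionFinEquiv.symm_apply_apply t
  have e4 : (lexPow (cycleGraph 5) r).Adj h h' ↔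
      LN r (finFunctionFinEquiv h).val (finFunctionFinEquiv h').val := by
    constructor
    · intro h1
      refine ⟨(finFunctionFinEquiv h).isLt, (finFunctionFinEquiv h').isLt, ?_⟩
      rw [e5, e5]
      exact h1
    · rintro ⟨_, _, h1⟩
      rw [e5, e5] at h1
      exact h1
  change (((subdiv k G □ cycleGraph (2 * k + 1)).Adj (s, c) (s', c')) ∨
    ((s, c) = (s', c') ∧ (((lexPow (cycleGraph 5) r).Adj h h') ∨
      (h = h' ∧ (circF p q).Adj z z')))) ↔ _
  rw [SimpleGraph.boxProd_adj, Prod.mk.injEq, e3, e4, circF_iff hq, subdiv_iff]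
  rw [e1 s s', e2 h h', Fin.ext_iff]
  unfold AN
  simp only
  tauto

/-- the parameter `q` -/
def qq (k N : ℕ) : ℕ := k * (N + N * (N * (2 * k - 2))) + 1

/-- the length of the circular clique -/
def pp (k U W N : ℕ) : ℕ := qq k N * U / W

/-- The graph of the reduction, with vertices numbered. -/
noncomputable def outR (k r p : ℕ) (G : FinGraph) : FinGraph :=
  ⟨MM k G.1 r p, (red k G.2 (factor r p (qq k G.1))).comap (vE k G.1 r p).symm⟩

theorem outR_imp (k r p : ℕ) (G : FinGraph) :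
    imp (outR k r p G).2 = imp (red k G.2 (factor r p (qq k G.1))) := by
  symm
  apply imp_iso
  exact ((SimpleGraph.Iso.comap (vE k G.1 r p).symm (red k G.2 (factor r p (qq k G.1))))).symm

/-- the bits of the output -/
theorem outR_bit (k r p : ℕ) (G : FinGraph) (i : ℕ) :
    (∃ a b : Fin (outR k r p G).1, i = a.val * (outR k r p G).1 + b.val ∧
      (outR k r p G).2.Adj a b) ↔
    ∃ s, s < G.1 + G.1 * (G.1 * (2 * k - 2)) ∧ ∃ c, c < 2 * k + 1 ∧ ∃ h, h < 5 ^ r ∧
      ∃ z, z < p ∧ ∃ s', s' < G.1 + G.1 * (G.1 * (2 * k - 2)) ∧ ∃ c', c' < 2 * k + 1 ∧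
      ∃ h', h' < 5 ^ r ∧ ∃ z', z' < p ∧
      i = vcode k r p s c h z * MM k G.1 r p + vcode k r p s' c' h' z' ∧
      AN k G.1 r p (qq k G.1) (fun x => (encGraph G)[x]? = some true)
        s c h z s' c' h' z' := by
  obtain ⟨N, G⟩ := G
  simp only
  have hq : 0 < qq k N := Nat.succ_pos _
  constructor
  · rintro ⟨a, b, h1, h2⟩
    obtain ⟨⟨⟨s, c⟩, h, z⟩, rfl⟩ := (vE k N r p).surjective a
    obtain ⟨⟨⟨s', c'⟩, h', z'⟩, rfl⟩ := (vE k N r p).surjective b
    have h3 : (red k G (factor r p (qq k N))).Adj ((s, c), (h, z)) ((s', c'), (h', z')) := by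
      have := h2
      simp only [outR, SimpleGraph.comap_adj, Equiv.symm_apply_apply] at this
      exact this
    rw [red_iff hq] at h3
    refine ⟨_, (sE k N s).isLt, _, c.isLt, _, (finFunctionFinEquiv h).isLt, _, z.isLt,
      _, (sE k N s').isLt, _, c'.isLt, _, (finFunctionFinEquiv h').isLt, _, z'.isLt, ?_, h3⟩
    rw [h1, vE_val, vE_val]
    rfl
  · rintro ⟨s, hs, c, hc, h, hh, z, hz, s', hs', c', hc', h', hh', z', hz', h1, h2⟩
    obtain ⟨s, rfl⟩ : ∃ t, (sE k N t).val = s := ⟨(sE k N).symm ⟨s, hs⟩, by simp⟩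
    obtain ⟨s', rfl⟩ : ∃ t, (sE k N t).val = s' := ⟨(sE k N).symm ⟨s', hs'⟩, by simp⟩
    obtain ⟨h, rfl⟩ : ∃ t : Fin r → Fin 5, (finFunctionFinEquiv t).val = h :=
      ⟨finFunctionFinEquiv.symm ⟨h, hh⟩, by simp⟩
    obtain ⟨h', rfl⟩ : ∃ t : Fin r → Fin 5, (finFunctionFinEquiv t).val = h' :=
      ⟨finFunctionFinEquiv.symm ⟨h', hh'⟩, by simp⟩
    have h3 := (red_iff hq G ((s, (⟨c, hc⟩ : Fin (2 * k + 1))), (h, (⟨z, hz⟩ : Fin p)))
      ((s', (⟨c', hc'⟩ : Fin (2 * k + 1))), (h', (⟨z', hz'⟩ : Fin p)))).2 h2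
    refine ⟨vE k N r p ((s, (⟨c, hc⟩ : Fin (2 * k + 1))), (h, (⟨z, hz⟩ : Fin p))),
      vE k N r p ((s', (⟨c', hc'⟩ : Fin (2 * k + 1))), (h', (⟨z', hz'⟩ : Fin p))), ?_, ?_⟩
    · rw [h1, vE_val, vE_val]
      rfl
    · simp only [outR, SimpleGraph.comap_adj, Equiv.symm_apply_apply]
      exact h3

end Pool.Agent.Helper92.IMP
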