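import Pool.Agent.Helper92.IMP.Code
import Pool.Agent.CHK.Bfm

/-!
# The reduction is computable in polynomial time
-/

set_option autoImplicit false
set_option linter.unusedSimpArgs false

namespace Pool.Agent.Helper92.IMP

open Pool.Agent.CHK

namespace F

local instance : Add Tm := ⟨Tm.add⟩
local instance : Mul Tm := ⟨Tm.mul⟩

theorem ev_add {n : ℕ} {v : ℕ → ℕ} (a b : Tm) : (a + b).eval n v = a.eval n v + b.eval n v := rfl
theorem ev_mul {n : ℕ} {v : ℕ → ℕ} (a b : Tm) : (a * b).eval n v = a.eval n v * b.eval n v := rfl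

/-- variables -/
abbrev X (k : ℕ) : Tm := .var k

/-- constants -/
abbrev K (c : ℕ) : Tm := .const c

/-- disjunction of a list -/
def ors : List Fm → Fm
  | [] => Fm.ff
  | f :: l => f.or (ors l)

theorem holds_ors {w : List Bool} {v : ℕ → ℕ} (l : List Fm) :
    (ors l).Holds w v ↔ ∃ f ∈ l, f.Holds w v := by
  induction l with
  | nil => simp [ors, Fm.ff]
  | cons f l ih => simp [ors, ih]

open Classical in
/-- a finite relation -/
noncomputable def finRel (B : ℕ) (R : ℕ → ℕ → Prop) (a b : Tm) : Fm :=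
  ors ((((List.range B) ×ˢ (List.range B)).filter fun x => decide (R x.1 x.2)).map fun x =>
    (Fm.eq a (K x.1)).and (Fm.eq b (K x.2)))

theorem holds_finRel {w : List Bool} {v : ℕ → ℕ} {B : ℕ} {R : ℕ → ℕ → Prop} {a b : Tm}
    (h : ∀ x y, R x y → x < B ∧ y < B) :
    (finRel B R a b).Holds w v ↔ R (a.eval w.length v) (b.eval w.length v) := by
  classical
  unfold finRel
  rw [holds_ors]
  simp only [List.mem_map, List.mem_filter, decide_eq_true_eq]
  constructor
  · rintro ⟨f, ⟨⟨x, y⟩, ⟨-, hR⟩, rfl⟩, hf⟩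
    simp only [Fm.holds_and, Fm.holds_eq, K, Tm.eval_const] at hf
    rw [hf.1, hf.2]
    exact hR
  · intro hR
    obtain ⟨h1, h2⟩ := h _ _ hR
    refine ⟨_, ⟨(a.eval w.length v, b.eval w.length v), ⟨?_, hR⟩, rfl⟩, ?_⟩
    · simp [h1, h2]
    · simp only [Fm.holds_and, Fm.holds_eq, K, Tm.eval_const]
      exact ⟨trivial, trivial⟩

/-- number of vertices of the subdivision -/
def nT (k : ℕ) : Tm := X 1 + X 1 * (X 1 * K (2 * k - 2))

/-- the term for `q` -/
def qT (k : ℕ) : Tm := K k * nT k + K 1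

/-- number of vertices of the output -/
def MT (k r : ℕ) : Tm := nT k * K (2 * k + 1) * (K (5 ^ r) * X 3)

/-- `tcode` -/
def tcT (k : ℕ) : Tm := X 1 + ((X 14 + K (2 * k - 2) * X 13) + (X 1 * K (2 * k - 2)) * X 12)

/-- `vcode` -/
def vcT (k r s c h z : ℕ) : Tm :=
  (X z + X 3 * X h) + (K (5 ^ r) * X 3) * (X c + K (2 * k + 1) * X s)

/-- `DN` -/
def fD (k a b : ℕ) : Fm :=
  Fm.ex 12 (X 1) (Fm.ex 13 (X 1) (((Fm.lt (X 12) (X 13)).and (Fm.inp (X 2 + (X 12 * X 1 + X 13)))).and
    (Fm.ex 14 (K (2 * k - 2)) ((Fm.eq (X b) (tcT k)).and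
      (((Fm.eq (X a) (X 12)).and (Fm.eq (X 14) (K 0))).or
        (((Fm.eq (X a) (X 13)).and (Fm.eq (X 14 + K 1) (K (2 * k - 2)))).or
          ((Fm.le (K 1) (X 14)).and (Fm.eq (X a + K 1) (X b)))))))))

/-- `AN` -/
noncomputable def fA (k r : ℕ) : Fm :=
  ((((fD k 4 8).or (fD k 8 4)).and (Fm.eq (X 5) (X 9))).or
    ((Fm.eq (X 4) (X 8)).and (finRel (2 * k + 1) (CN k) (X 5) (X 9)))).or
  (((Fm.eq (X 4) (X 8)).and (Fm.eq (X 5) (X 9))).and
    ((finRel (5 ^ r) (LN r) (X 6) (X 10)).or ((Fm.eq (X 6) (X 10)).and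
      (((Fm.le (X 7 + qT k) (X 11)).and (Fm.le (X 11 + qT k) (X 3 + X 7))).or
        ((Fm.le (X 11 + qT k) (X 7)).and (Fm.le (X 7 + qT k) (X 3 + X 11)))))))

/-- the bits of the output -/
noncomputable def fBit (k r : ℕ) : Fm :=
  Fm.ex 4 (nT k) (Fm.ex 5 (K (2 * k + 1)) (Fm.ex 6 (K (5 ^ r)) (Fm.ex 7 (X 3)
    (Fm.ex 8 (nT k) (Fm.ex 9 (K (2 * k + 1)) (Fm.ex 10 (K (5 ^ r)) (Fm.ex 11 (X 3)
      ((Fm.eq (X 0) (vcT k r 4 5 6 7 * MT k r + vcT k r 8 9 10 11)).and (fA k r)))))))))

/-- `X 1` is the number of vertices, `X 3` is `p` -/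
def fDec (k U W : ℕ) (f : Fm) : Fm :=
  Fm.ex 1 (Tm.len + K 1) ((Fm.eq (X 1 * X 1) Tm.len).and
    (Fm.ex 3 (K U * qT k + K 1) (((Fm.le (K W * X 3) (qT k * K U)).and
      (Fm.lt (qT k * K U) (K W * (X 3 + K 1)))).and f)))

/-- `X 1` is the number of vertices, `X 15` is the number in the input, `X 2` is the start of the
code of the graph, `X 3` is `p` -/
def fDecR (k : ℕ) (f : Fm) : Fm :=
  Fm.ex 1 (Tm.len + K 1) (Fm.ex 15 (Tm.len + K 1) (((Fm.eq (X 15 + K 1 + X 1 * X 1) Tm.len).and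
    (((Fm.inp (X 15)).neg).and ((Fm.ex 16 (X 15) (Fm.inp (X 16)).neg).neg))).and
    (Fm.ex 2 (X 15 + K 2) ((Fm.eq (X 2) (X 15 + K 1)).and
      (Fm.ex 3 (K 2 * qT k + X 15 + K 1) ((Fm.eq (X 3) (K 2 * qT k + X 15)).and f))))))

theorem holds_fD {w : List Bool} {v : ℕ → ℕ} {k a b : ℕ}
    (h : a = 4 ∧ b = 8 ∨ a = 8 ∧ b = 4) : (fD k a b).Holds w v ↔
      DN (2 * k - 2) (v 1) (fun x => w[v 2 + x]? = some true) (v a) (v b) := by
  rcases h with ⟨rfl, rfl⟩ | ⟨rfl, rfl⟩
  all_goals
    unfold fD DN tcT tcode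
    simp only [X, K, Fm.holds_and, Fm.holds_or, Fm.holds_ex, Fm.holds_le, Fm.holds_lt,
      Fm.holds_eq, Fm.holds_inp, ev_add, ev_mul, Tm.eval_var, Tm.eval_const]
    simp

theorem ev_qT {n k : ℕ} {v : ℕ → ℕ} : (qT k).eval n v = qq k (v 1) := rfl

theorem ev_nT {n k : ℕ} {v : ℕ → ℕ} :
    (nT k).eval n v = v 1 + v 1 * (v 1 * (2 * k - 2)) := rfl

theorem ev_MT {n k r : ℕ} {v : ℕ → ℕ} : (MT k r).eval n v = MM k (v 1) r (v 3) := rfl

theorem CN_lt {k x y : ℕ} (h : CN k x y) : x < 2 * k + 1 ∧ y < 2 * k + 1 := ⟨h.1, h.2.1⟩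

theorem LN_lt {r x y : ℕ} (h : LN r x y) : x < 5 ^ r ∧ y < 5 ^ r := ⟨h.1, h.2.1⟩

theorem holds_fA {w : List Bool} {v : ℕ → ℕ} {k r : ℕ} : (fA k r).Holds w v ↔
    AN k (v 1) r (v 3) (qq k (v 1)) (fun x => w[v 2 + x]? = some true)
      (v 4) (v 5) (v 6) (v 7) (v 8) (v 9) (v 10) (v 11) := by
  unfold fA AN
  simp only [Fm.holds_and, Fm.holds_or, Fm.holds_le, Fm.holds_eq, ev_add, ev_qT,
    holds_fD (Or.inl ⟨rfl, rfl⟩), holds_fD (Or.inr ⟨rfl, rfl⟩), holds_finRel fun x y => CN_lt,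
    holds_finRel fun x y => LN_lt, X, Tm.eval_var]

theorem holds_fBit {w : List Bool} {v : ℕ → ℕ} {k r : ℕ} : (fBit k r).Holds w v ↔
    ∃ s, s < v 1 + v 1 * (v 1 * (2 * k - 2)) ∧ ∃ c, c < 2 * k + 1 ∧ ∃ h, h < 5 ^ r ∧
      ∃ z, z < v 3 ∧ ∃ s', s' < v 1 + v 1 * (v 1 * (2 * k - 2)) ∧ ∃ c', c' < 2 * k + 1 ∧
      ∃ h', h' < 5 ^ r ∧ ∃ z', z' < v 3 ∧
      v 0 = vcode k r (v 3) s c h z * MM k (v 1) r (v 3) + vcode k r (v 3) s' c' h' z' ∧
      AN k (v 1) r (v 3) (qq k (v 1)) (fun x => w[v 2 + x]? = some true) s c h z s' c' h' z' := by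
  unfold fBit vcT vcode
  simp only [Fm.holds_and, Fm.holds_ex, Fm.holds_eq, ev_add, ev_mul, ev_nT, ev_MT, holds_fA,
    X, K, Tm.eval_var, Tm.eval_const]
  simp

theorem holds_fDec (k U W : ℕ) (hW : 0 < W) (f : Fm) (G : FinGraph) (v : ℕ → ℕ) :
    (fDec k U W f).Holds (encGraph G) v ↔
      f.Holds (encGraph G) (Function.update (Function.update v 1 G.1) 3 (pp k U W G.1)) := by
  unfold fDec
  simp only [Fm.holds_and, Fm.holds_ex, Fm.holds_eq, Fm.holds_le, Fm.holds_lt, ev_add, ev_mul,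
    ev_qT, X, K, Tm.eval_var, Tm.eval_const, Tm.eval_len, encGraph_length, Function.update_self]
  have e1 : ∀ (u : ℕ → ℕ) (a b : ℕ), Function.update (Function.update u 1 a) 3 b 1 = a := by
    intro u a b
    rw [Function.update_of_ne (by omega), Function.update_self]
  simp only [e1]
  have key : ∀ p, W * p ≤ qq k G.1 * U ∧ qq k G.1 * U < W * (p + 1) ↔ p = pp k U W G.1 := by
    intro p
    unfold pp
    constructor
    · rintro ⟨h1, h2⟩
      symm
      rw [Nat.div_eq_iff hW]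
      constructor
      · rw [Nat.mul_comm]; exact h1
      · have h3 : W * (p + 1) = p * W + W := by ring
        omega
    · rintro rfl
      constructor
      · exact Nat.mul_div_le _ _
      · have := Nat.lt_mul_div_succ (qq k G.1 * U) hW
        exact this
  constructor
  · rintro ⟨a, ha, hN, p, hp, hpp, hf⟩
    have hN' : a = G.1 := Nat.mul_self_inj.1 hN
    subst hN'
    rw [key] at hpp
    subst hpp
    exact hf
  · intro hf
    refine ⟨G.1, ?_, rfl, pp k U W G.1, ?_, (key _).2 rfl, hf⟩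
    · have := Nat.le_mul_self G.1
      omega
    · unfold pp
      have h1 : qq k G.1 * U / W ≤ qq k G.1 * U := Nat.div_le_self _ _
      rw [Nat.mul_comm U]
      omega

/-- the values of the variables -/
def vR (k j N : ℕ) (v : ℕ → ℕ) : ℕ → ℕ :=
  Function.update (Function.update (Function.update (Function.update v 1 N) 15 j) 2 (j + 1)) 3
    (2 * qq k N + j)

theorem vR0 {k j N : ℕ} {v : ℕ → ℕ} : vR k j N v 0 = v 0 := by simp [vR]
theorem vR1 {k j N : ℕ} {v : ℕ → ℕ} : vR k j N v 1 = N := by simp [vR]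
theorem vR2 {k j N : ℕ} {v : ℕ → ℕ} : vR k j N v 2 = j + 1 := by simp [vR]
theorem vR3 {k j N : ℕ} {v : ℕ → ℕ} : vR k j N v 3 = 2 * qq k N + j := by simp [vR]

theorem holds_fDecR (k : ℕ) (f : Fm) (j : ℕ) (G : FinGraph) (v : ℕ → ℕ) :
    (fDecR k f).Holds (encPair (j, G)) v ↔ f.Holds (encPair (j, G)) (vR k j G.1 v) := by
  unfold fDecR
  simp only [Fm.holds_and, Fm.holds_ex, Fm.holds_eq, Fm.holds_neg, Fm.holds_inp, ev_add, ev_mul,
    ev_qT, X, K, Tm.eval_var, Tm.eval_const, Tm.eval_len, encPair_length, Function.update_self]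
  have e1 : ∀ (u : ℕ → ℕ) (a b : ℕ), Function.update (Function.update u 1 a) 15 b 1 = a := by
    intro u a b
    rw [Function.update_of_ne (by omega), Function.update_self]
  have e2 : ∀ (u : ℕ → ℕ) (a b c : ℕ),
      Function.update (Function.update (Function.update u 1 a) 15 b) 2 c 15 = b := by
    intro u a b c
    rw [Function.update_of_ne (by omega), Function.update_self]
  have e3 : ∀ (u : ℕ → ℕ) (a b c : ℕ),
      Function.update (Function.update (Function.update u 1 a) 15 b) 2 c 1 = a := by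
    intro u a b c
    rw [Function.update_of_ne (by omega), Function.update_of_ne (by omega), Function.update_self]
  have e4 : ∀ (u : ℕ → ℕ) (a b c d : ℕ),
      Function.update (Function.update (Function.update (Function.update u 1 a) 15 b) 2 c) 3 d 15
        = b := by
    intro u a b c d
    rw [Function.update_of_ne (by omega), Function.update_of_ne (by omega), Function.update_self]
  have e5 : ∀ (u : ℕ → ℕ) (a b c d : ℕ),
      Function.update (Function.update (Function.update (Function.update u 1 a) 15 b) 2 c) 3 d 1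
        = a := by
    intro u a b c d
    rw [Function.update_of_ne (by omega), Function.update_of_ne (by omega),
      Function.update_of_ne (by omega), Function.update_self]
  simp only [e1, e2, e3, e4, e5]
  constructor
  · rintro ⟨a, -, b, -, ⟨h1, h2, h3⟩, c, -, h4, d, -, h5, hf⟩
    have hb : b = j := by
      rcases lt_trichotomy b j with h | h | h
      · exact absurd (encPair_lt h) h2
      · exact h
      · exact absurd ⟨j, h, by rw [encPair_eq]; simp⟩ h3
    subst hb
    have ha : a = G.1 := Nat.mul_self_inj.1 (by omega)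
    subst ha
    subst h4
    subst h5
    exact hf
  · intro hf
    refine ⟨G.1, ?_, j, by omega, ⟨rfl, by rw [encPair_eq]; simp, ?_⟩, j + 1, by omega, rfl,
      2 * qq k G.1 + j, by omega, rfl, hf⟩
    · have := Nat.le_mul_self G.1
      omega
    · rintro ⟨i, hi, h⟩
      exact h (encPair_lt hi)

/-- letters of the output -/
def al (k r U W : ℕ) : Fm := fDec k U W (Fm.lt (X 0) (MT k r * MT k r))

/-- values of the letters of the output -/
noncomputable def be (k r U W : ℕ) : Fm := fDec k U W (fBit k r)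

/-- letters of the output -/
def alR (k r : ℕ) : Fm := fDecR k (Fm.lt (X 0) (MT k r * MT k r))

/-- values of the letters of the output -/
noncomputable def beR (k r : ℕ) : Fm := fDecR k (fBit k r)

/-- a constant -/
def CC (k r D : ℕ) : ℕ := (2 * k - 2 + 1) * (2 * k + 1) * (5 ^ r * D)

/-- bound for the length of the output -/
def TT (k r D : ℕ) : Tm := K (CC k r D * CC k r D) *
  (((Tm.len + K 1) * (Tm.len + K 1)) * ((Tm.len + K 1) * (Tm.len + K 1)))

/-- a constant -/
def Dq (k : ℕ) : ℕ := k * (2 * k - 2 + 1) + 1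

theorem holds_al (k r U W : ℕ) (hW : 0 < W) (G : FinGraph) (i : ℕ) :
    (al k r U W).Holds (encGraph G) (Function.update 0 0 i) ↔
      i < (outR k r (pp k U W G.1) G).1 * (outR k r (pp k U W G.1) G).1 := by
  unfold al
  rw [holds_fDec k U W hW]
  simp only [Fm.holds_lt, ev_mul, ev_MT, X, Tm.eval_var]
  simp [outR]

theorem holds_be (k r U W : ℕ) (hW : 0 < W) (G : FinGraph) (i : ℕ) :
    (be k r U W).Holds (encGraph G) (Function.update 0 0 i) ↔
      ∃ a b : Fin (outR k r (pp k U W G.1) G).1,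
        i = a.val * (outR k r (pp k U W G.1) G).1 + b.val ∧
        (outR k r (pp k U W G.1) G).2.Adj a b := by
  unfold be
  rw [holds_fDec k U W hW, holds_fBit, outR_bit]
  simp

theorem holds_alR (k r j : ℕ) (G : FinGraph) (i : ℕ) :
    (alR k r).Holds (encPair (j, G)) (Function.update 0 0 i) ↔
      i < (outR k r (2 * qq k G.1 + j) G).1 * (outR k r (2 * qq k G.1 + j) G).1 := by
  unfold alR
  rw [holds_fDecR]
  simp only [Fm.holds_lt, ev_mul, ev_MT, X, Tm.eval_var, vR0, vR1, vR3, Function.update_self]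
  rfl

theorem holds_beR (k r j : ℕ) (G : FinGraph) (i : ℕ) :
    (beR k r).Holds (encPair (j, G)) (Function.update 0 0 i) ↔
      ∃ a b : Fin (outR k r (2 * qq k G.1 + j) G).1,
        i = a.val * (outR k r (2 * qq k G.1 + j) G).1 + b.val ∧
        (outR k r (2 * qq k G.1 + j) G).2.Adj a b := by
  unfold beR
  rw [holds_fDecR, holds_fBit, outR_bit]
  simp only [vR0, vR1, vR2, vR3, Function.update_self, encPair_shift]

theorem qq_le {k N L : ℕ} (hL : N * N ≤ L) : qq k N ≤ Dq k * (L + 1) := by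
  have h1 : N ≤ L := (Nat.le_mul_self N).trans hL
  have hn : N + N * (N * (2 * k - 2)) ≤ (2 * k - 2 + 1) * (L + 1) := by
    have e : N * (N * (2 * k - 2)) = (N * N) * (2 * k - 2) := by ring
    rw [e]
    have e2 := Nat.mul_le_mul_right (2 * k - 2) hL
    nlinarith [Nat.zero_le (2 * k - 2)]
  unfold qq Dq
  calc k * (N + N * (N * (2 * k - 2))) + 1 ≤ k * ((2 * k - 2 + 1) * (L + 1)) + 1 * (L + 1) :=
        Nat.add_le_add (Nat.mul_le_mul_left _ hn) (by omega)
    _ = (k * (2 * k - 2 + 1) + 1) * (L + 1) := by ring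

theorem len_le {k r p D L : ℕ} (G : FinGraph) (hL : G.1 * G.1 ≤ L) (hp : p ≤ D * (L + 1)) :
    (outR k r p G).1 * (outR k r p G).1 ≤ (TT k r D).eval L 0 := by
  have h1 : G.1 ≤ L := (Nat.le_mul_self G.1).trans hL
  have hn : G.1 + G.1 * (G.1 * (2 * k - 2)) ≤ (2 * k - 2 + 1) * (L + 1) := by
    have e : G.1 * (G.1 * (2 * k - 2)) = (G.1 * G.1) * (2 * k - 2) := by ring
    rw [e]
    have e2 := Nat.mul_le_mul_right (2 * k - 2) hL
    nlinarith [Nat.zero_le (2 * k - 2)]
  have hM : MM k G.1 r p ≤ CC k r D * ((L + 1) * (L + 1)) := by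
    unfold MM CC
    calc (G.1 + G.1 * (G.1 * (2 * k - 2))) * (2 * k + 1) * (5 ^ r * p)
        ≤ ((2 * k - 2 + 1) * (L + 1)) * (2 * k + 1) * (5 ^ r * (D * (L + 1))) :=
          Nat.mul_le_mul (Nat.mul_le_mul_right _ hn) (Nat.mul_le_mul_left _ hp)
      _ = _ := by ring
  change MM k G.1 r p * MM k G.1 r p ≤
    CC k r D * CC k r D * (((L + 1) * (L + 1)) * ((L + 1) * (L + 1)))
  calc _ ≤ (CC k r D * ((L + 1) * (L + 1))) * (CC k r D * ((L + 1) * (L + 1))) :=
        Nat.mul_le_mul hM hM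
    _ = _ := by ring

theorem range_filter {β : Type} (f : ℕ → β) (P : ℕ → Prop) [DecidablePred P] (a b : ℕ) (h : a ≤ b)
    (hP : ∀ i, P i ↔ i < a) :
    (List.range b).flatMap (fun i => if P i then [f i] else []) = (List.range a).map f := by
  obtain ⟨c, rfl⟩ := Nat.exists_eq_add_of_le h
  rw [List.range_add, List.flatMap_append]
  have h1 : (List.range a).flatMap (fun i => if P i then [f i] else []) =
      (List.range a).map f := by
    rw [← List.flatMap_pure_eq_map]
    apply List.flatMap_congr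
    intro i hi
    rw [List.mem_range] at hi
    rw [if_pos ((hP i).2 hi)]
    rfl
  have h2 : ((List.range c).map fun x => a + x).flatMap (fun i => if P i then [f i] else []) =
      [] := by
    rw [List.flatMap_eq_nil_iff]
    intro i hi
    rw [List.mem_map] at hi
    obtain ⟨x, -, rfl⟩ := hi
    rw [if_neg (by rw [hP]; omega)]
  rw [h1, h2, List.append_nil]

theorem bfm_eq (k r U W : ℕ) (hW : 0 < W) (G : FinGraph) :
    bfmF (TT k r (Dq k * U)) (al k r U W) (be k r U W) (encGraph G) =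
      encGraph (outR k r (pp k U W G.1) G) := by
  classical
  unfold bfmF
  conv_rhs => unfold encGraph
  have hp : pp k U W G.1 ≤ Dq k * U * ((encGraph G).length + 1) := by
    rw [encGraph_length]
    unfold pp
    calc qq k G.1 * U / W ≤ qq k G.1 * U := Nat.div_le_self _ _
      _ ≤ Dq k * (G.1 * G.1 + 1) * U := Nat.mul_le_mul_right _ (qq_le le_rfl)
      _ = _ := by ring
  rw [range_filter _ _ _ _ (len_le G (encGraph_length G).ge hp) (holds_al k r U W hW G)]
  apply List.map_congr_left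
  intro i _
  rw [decide_eq_decide, holds_be k r U W hW]

theorem bfm_eqR (k r j : ℕ) (G : FinGraph) :
    bfmF (TT k r (2 * Dq k + 1)) (alR k r) (beR k r) (encPair (j, G)) =
      encGraph (outR k r (2 * qq k G.1 + j) G) := by
  classical
  unfold bfmF
  conv_rhs => unfold encGraph
  have hL : G.1 * G.1 ≤ (encPair (j, G)).length := by
    rw [encPair_length]
    omega
  have hp : 2 * qq k G.1 + j ≤ (2 * Dq k + 1) * ((encPair (j, G)).length + 1) := by
    have h1 := qq_le (k := k) hL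
    have h2 : j ≤ (encPair (j, G)).length + 1 := by
      rw [encPair_length]
      omega
    calc 2 * qq k G.1 + j ≤ 2 * (Dq k * ((encPair (j, G)).length + 1)) +
        ((encPair (j, G)).length + 1) := by omega
      _ = _ := by ring
  rw [range_filter _ _ _ _ (len_le G hL hp) (holds_alR k r j G)]
  apply List.map_congr_left
  intro i _
  rw [decide_eq_decide, holds_beR]

/-- The many-one reduction for rational thresholds. -/
theorem outG_poly (k r U W : ℕ) (hW : 0 < W) :
    Nonempty (Turing.TM2ComputableInPolyTime encGraph encGraph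
      fun G => outR k r (pp k U W G.1) G) :=
  bfm_enc _ _ _ (TT k r (Dq k * U)) (al k r U W) (be k r U W) (bfm_eq k r U W hW)

/-- The queries for real thresholds. -/
theorem outR_poly (k r : ℕ) :
    Nonempty (Turing.TM2ComputableInPolyTime encPair encGraph
      fun x : ℕ × FinGraph => outR k r (2 * qq k x.2.1 + x.1) x.2) :=
  bfm_enc _ _ _ (TT k r (2 * Dq k + 1)) (alR k r) (beR k r) fun x => bfm_eqR k r x.1 x.2

end F

end Pool.Agent.Helper92.IMP
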