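import Mathlib

/-!
# Encoding of finite graphs as words
-/

set_option autoImplicit false

open SimpleGraph

namespace Pool.Agent.Helper92.IMP

/-- Finite graphs: a number `N` of vertices and a graph on the vertices `0, ..., N - 1`. -/
abbrev FinGraph : Type := Σ N : ℕ, SimpleGraph (Fin N)

open Classical in
/-- Encoding of graphs: the adjacency matrix, row by row. -/
noncomputable def encGraph (G : FinGraph) : List Bool :=
  (List.range (G.1 * G.1)).map fun i =>
    decide (∃ a b : Fin G.1, i = a.val * G.1 + b.val ∧ G.2.Adj a b)

theorem encGraph_length (G : FinGraph) : (encGraph G).length = G.1 * G.1 := by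
  simp [encGraph]

theorem encGraph_bit {N : ℕ} (K : SimpleGraph (Fin N)) (a b : Fin N) :
    (encGraph ⟨N, K⟩)[a.val * N + b.val]? = some true ↔ K.Adj a b := by
  have hN : 0 < N := lt_of_le_of_lt (Nat.zero_le _) a.isLt
  have hlt : a.val * N + b.val < N * N := by
    calc a.val * N + b.val < a.val * N + N := by have := b.isLt; omega
      _ = (a.val + 1) * N := by ring
      _ ≤ N * N := Nat.mul_le_mul_right _ a.isLt
  unfold encGraph
  simp only [List.getElem?_map, List.getElem?_range hlt, Option.map_some, Option.some.injEq,
    decide_eq_true_eq]
  constructor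
  · rintro ⟨a', b', h1, h2⟩
    have h3 : a.val = a'.val := by
      have := congrArg (· / N) h1
      simp only [Nat.mul_comm _ N, Nat.mul_add_div hN, Nat.div_eq_of_lt b.isLt,
        Nat.div_eq_of_lt b'.isLt, Nat.add_zero] at this
      exact this
    have h4 : b.val = b'.val := by
      rw [h3] at h1
      omega
    rw [Fin.ext h3, Fin.ext h4]
    exact h2
  · intro h
    exact ⟨a, b, rfl, h⟩

theorem encGraph_injective : Function.Injective encGraph := by
  intro G H h
  have h1 : G.1 = H.1 := by
    have := congrArg List.length h
    rw [encGraph_length, encGraph_length] at this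
    exact Nat.mul_self_inj.1 this
  obtain ⟨N, G⟩ := G
  obtain ⟨N', H⟩ := H
  simp only at h1
  subst h1
  congr 1
  ext a b
  rw [← encGraph_bit, ← encGraph_bit, h]

/-- Encoding of pairs of a number, in unary, and a graph. -/
noncomputable def encPair (x : ℕ × FinGraph) : List Bool :=
  List.replicate x.1 true ++ false :: encGraph x.2

theorem encPair_lt {j i : ℕ} {G : FinGraph} (h : i < j) : (encPair (j, G))[i]? = some true := by
  unfold encPair
  rw [List.getElem?_append_left (by simpa using h)]
  simp [h]

theorem encPair_eq {j : ℕ} {G : FinGraph} : (encPair (j, G))[j]? = some false := by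
  unfold encPair
  rw [List.getElem?_append_right (by simp)]
  simp

theorem encPair_shift {j i : ℕ} {G : FinGraph} :
    (encPair (j, G))[j + 1 + i]? = (encGraph G)[i]? := by
  unfold encPair
  rw [List.getElem?_append_right (by simp; omega)]
  have : j + 1 + i - (List.replicate j true).length = i + 1 := by simp; omega
  rw [this, List.getElem?_cons_succ]

theorem encPair_length (j : ℕ) (G : FinGraph) :
    (encPair (j, G)).length = j + 1 + G.1 * G.1 := by
  simp [encPair, encGraph_length]
  omega

theorem encPair_injective : Function.Injective encPair := by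
  rintro ⟨j, G⟩ ⟨j', G'⟩ h
  have h1 : j = j' := by
    rcases lt_trichotomy j j' with h2 | h2 | h2
    · have h3 := encPair_lt (G := G') h2
      rw [← h, encPair_eq] at h3
      simp at h3
    · exact h2
    · have h3 := encPair_lt (G := G) h2
      rw [h, encPair_eq] at h3
      simp at h3
  subst h1
  have h2 : encGraph G = encGraph G' := by
    unfold encPair at h
    have h3 := List.append_cancel_left h
    simpa using h3
  rw [encGraph_injective h2]

end Pool.Agent.Helper92.IMP
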