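import Pool.Agent.Helper92.IMP.Code

/-!
# The imperfection ratio of an induced subgraph
-/

set_option autoImplicit false

open SimpleGraph

namespace Pool.Agent.Helper92.IMP

open Pool.Agent.Helper63.Imp

theorem imp_embed {V W : Type} [Fintype V] [Fintype W] {G : SimpleGraph V} {G' : SimpleGraph W}
    (e : G ↪g G') : imp G ≤ imp G' := by
  classical
  rw [imp_le_iff (imp_nonneg G')]
  intro x
  let x' : W → ℕ := fun b => ∑ a, if e a = b then x a else 0
  have hx' : ∀ a, x' (e a) = x a := by
    intro a
    simp only [x']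
    rw [Finset.sum_eq_single a]
    · simp
    · intro b _ hb
      rw [if_neg fun h => hb (e.injective h)]
    · simp
  have h2 : wcl G' x' ≤ wcl G x := by
    obtain ⟨K, hK, hK'⟩ := exists_wcl G' x'
    rw [hK']
    have h3 : G.IsClique ((Finset.univ.filter fun a => e a ∈ K : Finset V) : Set V) := by
      intro a ha b hb hab
      simp only [Finset.coe_filter, Finset.mem_univ, true_and, Set.mem_ofPred_eq] at ha hb
      exact e.map_adj_iff.1 (hK ha hb (fun h => hab (e.injective h)))
    refine le_trans (le_of_eq ?_) (le_wcl h3)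
    simp only [x']
    rw [Finset.sum_comm, Finset.sum_filter]
    apply Finset.sum_congr rfl
    intro a _
    rw [Finset.sum_ite_eq]
  obtain ⟨w, w1, w2, w3, w4⟩ := imp_spec (G := G') x'
  refine FC.mono_t (FC.of_family (ι := Finset W) (fun S => Finset.univ.filter fun a => e a ∈ S) w w1
    ?_ ?_ w4) (mul_le_mul_of_nonneg_left (by exact_mod_cast h2) (imp_nonneg G'))
  · intro S hS a ha b hb hab hadj
    simp only [Finset.coe_filter, Finset.mem_univ, true_and, Set.mem_ofPred_eq] at ha hb
    exact w2 S hS ha hb (fun h => hab (e.injective h)) (e.map_adj_iff.2 hadj)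
  · intro a
    have : ((x' (e a) : ℕ) : ℝ) ≤ ∑ S, if e a ∈ S then w S else 0 := w3 (e a)
    rw [hx'] at this
    refine this.trans (le_of_eq (Finset.sum_congr rfl fun S _ => ?_))
    simp

theorem imp_lex_le_red {k N : ℕ} (G : SimpleGraph (Fin N)) (hN : 0 < N) {W : Type} [Fintype W]
    (B : SimpleGraph W) : imp (lex (cycleGraph (2 * k + 1)) B) ≤ imp (red k G B) := by
  unfold red
  rw [imp_lex, imp_lex]
  refine mul_le_mul_of_nonneg_right ?_ (imp_nonneg _)
  have e : cycleGraph (2 * k + 1) ↪g (subdiv k G □ cycleGraph (2 * k + 1)) :=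
    { toFun := fun c => (.inl ⟨0, hN⟩, c)
      inj' := fun a b h => (Prod.mk.inj h).2
      map_rel_iff' := by
        intro a b
        simp [SimpleGraph.boxProd_adj] }
  exact imp_embed e

/-- The truth table reduction with the queries built from the input and the edgeless graph. -/
theorem table {k r N q : ℕ} {t : ℝ} (G : SimpleGraph (Fin N))
    (h : ∀ G : SimpleGraph (Fin N), G.Colorable (2 * k + 1) ↔ ∀ p, 2 * q ≤ p → p < 3 * q →
      imp (lex (cycleGraph (2 * k + 1)) (factor r p q)) ≤ t → imp (red k G (factor r p q)) ≤ t) :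
    G.Colorable (2 * k + 1) ↔ ∀ j, j < q →
      imp (red k (⊥ : SimpleGraph (Fin N)) (factor r (2 * q + j) q)) ≤ t →
      imp (red k G (factor r (2 * q + j) q)) ≤ t := by
  rcases Nat.eq_zero_or_pos N with h0 | h0
  · subst h0
    have e : G = ⊥ := by
      ext a
      exact a.elim0
    subst e
    constructor
    · intro _ j _ h
      exact h
    · intro _
      exact ⟨SimpleGraph.Coloring.mk (fun a => a.elim0) (fun {a} => a.elim0)⟩
  · constructor
    · intro hc j hj h1
      exact (h G).1 hc (2 * q + j) (by omega) (by omega) ((imp_lex_le_red _ h0 _).trans h1)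
    · intro hj
      refine (h G).2 fun p hp hp' h1 => ?_
      obtain ⟨j, rfl⟩ := Nat.exists_eq_add_of_le hp
      refine hj j (by omega) ?_
      have hbot : (⊥ : SimpleGraph (Fin N)).Colorable (2 * k + 1) :=
        ⟨SimpleGraph.Coloring.mk (fun _ => 0) (fun h => absurd h id)⟩
      exact (h ⊥).1 hbot _ hp hp' h1

end Pool.Agent.Helper92.IMP
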